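import Pool.Agent.MP_52bf41_ag.H12.Spec

/-! Components, nodes and dimension of a prestable curve. -/

open AlgebraicGeometry CategoryTheory Limits IsLocalRing TopologicalSpace

namespace Pool.Agent.MP_52bf41_ag.H71

open H12

section Ring

variable {k : Type} [Field k]

/-- The branches of a node. -/
theorem node_branches : ∃ φ₁ φ₂ : NodeRing k →+* PowerSeries k, Function.Surjective φ₁ ∧
    Function.Surjective φ₂ ∧ (∀ a b, φ₁ a = 0 → φ₂ b = 0 → a * b = 0) ∧
    ∃ a b : NodeRing k, a * b = 0 ∧ φ₁ a ≠ 0 ∧ φ₂ b ≠ 0 := by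
  let e : Fin 2 → (Unit ↪ Fin 2) := fun i => ⟨fun _ => i, fun _ _ _ => rfl⟩
  let ψ : Fin 2 → (MvPowerSeries (Fin 2) k →+* PowerSeries k) := fun i =>
    (MvPowerSeries.killCompl (R := k) (e i)).toRingHom
  have hψ : ∀ i f, ψ i f = MvPowerSeries.killCompl (R := k) (e i) f := fun _ _ => rfl
  have h0 : ∀ i j, j ≠ i → ψ i (MvPowerSeries.X j) = 0 := fun i j h =>
    MvPowerSeries.killCompl_X_eq_zero (by rintro ⟨_, h'⟩; exact h h'.symm)
  have h1 : ∀ i, ψ i (MvPowerSeries.X i) = PowerSeries.X := fun i =>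
    MvPowerSeries.killCompl_X (e := e i) ()
  have hk : ∀ i, ∀ a ∈ Ideal.span {(MvPowerSeries.X 0 * MvPowerSeries.X 1 :
      MvPowerSeries (Fin 2) k)}, ψ i a = 0 := by
    intro i a ha
    obtain ⟨c, rfl⟩ := Ideal.mem_span_singleton'.1 ha
    fin_cases i
    · simp [h0 0 1 (by decide)]
    · simp [h0 1 0 (by decide)]
  have hs : ∀ i, Function.Surjective (Ideal.Quotient.lift _ (ψ i) (hk i)) := fun i f =>
    ⟨Ideal.Quotient.mk _ (MvPowerSeries.rename (e i) f), MvPowerSeries.killCompl_rename_app f⟩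
  have hd : ∀ i j, j ≠ i → ∀ f, ψ i f = 0 → MvPowerSeries.X j ∣ f := by
    intro i j hij f hf
    rw [MvPowerSeries.X_dvd_iff]
    intro m hm
    have : m = Finsupp.embDomain (e i) (Finsupp.single () (m i)) := by
      rw [Finsupp.embDomain_single, show e i () = i from rfl]
      ext l
      by_cases hl : l = i
      · subst hl; simp
      · have : l = j := by omega
        subst this
        simp [hm, hij]
    rw [this, ← MvPowerSeries.coeff_killCompl, ← hψ, hf]
    rfl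
  refine ⟨_, _, hs 0, hs 1, fun a b ha hb => ?_, Ideal.Quotient.mk _ (MvPowerSeries.X 0),
    Ideal.Quotient.mk _ (MvPowerSeries.X 1), ?_, ?_, ?_⟩
  · obtain ⟨a, rfl⟩ := Ideal.Quotient.mk_surjective a
    obtain ⟨b, rfl⟩ := Ideal.Quotient.mk_surjective b
    rw [← map_mul, Ideal.Quotient.eq_zero_iff_mem, Ideal.mem_span_singleton, mul_comm a]
    exact mul_dvd_mul (hd 1 0 (by decide) b hb) (hd 0 1 (by decide) a ha)
  · rw [← map_mul, Ideal.Quotient.eq_zero_iff_mem]
    exact Ideal.mem_span_singleton_self _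
  · rw [Ideal.Quotient.lift_mk, h1]; exact PowerSeries.X_ne_zero
  · rw [Ideal.Quotient.lift_mk, h1]; exact PowerSeries.X_ne_zero

theorem not_equiv_node (e : PowerSeries k ≃+* NodeRing k) : False := by
  obtain ⟨φ₁, φ₂, -, -, -, a, b, hab, ha, hb⟩ := node_branches (k := k)
  have h : e.symm a * e.symm b = 0 := by rw [← map_mul, hab, map_zero]
  rcases mul_eq_zero.1 h with h | h
  · exact ha (by rw [(map_eq_zero_iff _ e.symm.injective).1 h, map_zero])
  · exact hb (by rw [(map_eq_zero_iff _ e.symm.injective).1 h, map_zero])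

variable {O : Type} [CommRing O] [IsLocalRing O] [IsNoetherianRing O]

theorem primes_of_branches (ψ₁ ψ₂ : AdicCompletion (maximalIdeal O) O →+* PowerSeries k)
    (h₁ : Function.Surjective ψ₁) (h₂ : Function.Surjective ψ₂)
    (h : ∀ a b, ψ₁ a = 0 → ψ₂ b = 0 → a * b = 0) :
    ∃ q₁ q₂ : PrimeSpectrum O, (∀ p, q₁ ≤ p ∨ q₂ ≤ p) ∧ (ψ₁ = ψ₂ → q₁ = q₂) ∧
      q₁ ≠ closedPoint O ∧ ∀ p p' : PrimeSpectrum O, p < p' → p' = closedPoint O := by
  have hk : ∀ P : Ideal (AdicCompletion (maximalIdeal O) O), P.IsPrime →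
      RingHom.ker ψ₁ ≤ P ∨ RingHom.ker ψ₂ ≤ P := fun P hP =>
    hP.mul_le.1 (Ideal.mul_le.2 fun a ha b hb => by rw [h a b ha hb]; exact P.zero_mem)
  have hlo : (maximalIdeal (AdicCompletion (maximalIdeal O) O)).LiesOver (maximalIdeal O) :=
    ⟨(IsLocalRing.maximalIdeal_comap _).symm⟩
  refine ⟨⟨RingHom.ker (ψ₁.comp (algebraMap O _)), RingHom.ker_isPrime _⟩,
    ⟨RingHom.ker (ψ₂.comp (algebraMap O _)), RingHom.ker_isPrime _⟩, fun p => ?_,
    fun e => by subst e; rfl, fun e => ?_, fun p p' hp => ?_⟩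
  · obtain ⟨P, -, hP, hl⟩ := Ideal.exists_ideal_le_liesOver_of_le (p := p.asIdeal)
      (q := maximalIdeal O) (maximalIdeal (AdicCompletion (maximalIdeal O) O))
      (le_maximalIdeal p.isPrime.ne_top)
    rcases hk P hP with h' | h'
    · left
      intro a ha
      rw [P.over_def p.asIdeal]
      exact h' ha
    · right
      intro a ha
      rw [P.over_def p.asIdeal]
      exact h' ha
  · obtain ⟨z, hz⟩ := h₁ PowerSeries.X
    have hz' : z ∈ maximalIdeal (AdicCompletion (maximalIdeal O) O) := by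
      intro hu
      have := hu.map ψ₁
      rw [hz] at this
      exact PowerSeries.X_prime.not_isUnit this
    rw [AdicCompletion.maximalIdeal_eq_map] at hz'
    have hle : (maximalIdeal O).map (algebraMap O (AdicCompletion (maximalIdeal O) O)) ≤
        RingHom.ker ψ₁ := by
      rw [Ideal.map_le_iff_le_comap]
      exact (congrArg PrimeSpectrum.asIdeal e).ge
    exact PowerSeries.X_ne_zero (hz.symm.trans (hle hz'))
  · obtain ⟨P', -, hP', hl'⟩ := Ideal.exists_ideal_le_liesOver_of_le (p := p'.asIdeal)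
      (q := maximalIdeal O) (maximalIdeal (AdicCompletion (maximalIdeal O) O))
      (le_maximalIdeal p'.isPrime.ne_top)
    obtain ⟨P, hPP, hP, hl⟩ := Ideal.exists_ideal_lt_liesOver_of_lt (p := p.asIdeal)
      (q := p'.asIdeal) P' hp
    have key : ∀ ψ : AdicCompletion (maximalIdeal O) O →+* PowerSeries k, Function.Surjective ψ →
        RingHom.ker ψ ≤ P → P'.IsMaximal := by
      intro ψ hψ hle
      have hpr : (P'.map ψ).IsPrime := Ideal.map_isPrime_of_surjective hψ (hle.trans hPP.le)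
      have hc : (P'.map ψ).comap ψ = P' := by
        rw [Ideal.comap_map_of_surjective _ hψ, sup_eq_left]
        exact hle.trans hPP.le
      have hne : P'.map ψ ≠ ⊥ := by
        intro h0
        rw [h0] at hc
        exact hPP.not_ge (hc ▸ hle)
      have := IsPrime.to_maximal_ideal hne
      rw [← hc]
      exact Ideal.comap_isMaximal_of_surjective _ hψ
    have hmax : P'.IsMaximal := (hk P hP).elim (key ψ₁ h₁) (key ψ₂ h₂)
    ext1
    rw [P'.over_def p'.asIdeal, eq_maximalIdeal hmax]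
    exact IsLocalRing.maximalIdeal_comap _

end Ring

section Top

variable {α : Type} [TopologicalSpace α]

theorem infinite_closedPoints [JacobsonSpace α] {Z : Set α} (hZ : IsIrreducible Z)
    (hc : IsClosed Z) (hns : ∀ x, IsClosed {x} → Z ≠ {x}) : (Z ∩ closedPoints α).Infinite := by
  intro hf
  have h1 : IsClosed (Z ∩ closedPoints α) := by
    rw [← Set.biUnion_of_singleton (Z ∩ closedPoints α)]
    exact hf.isClosed_biUnion fun x hx => hx.2
  have h2 : Z = Z ∩ closedPoints α := by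
    have := JacobsonSpace.closure_inter_closedPoints hc
    rw [h1.closure_eq] at this
    exact this.symm
  obtain ⟨t, ht, hZt⟩ := isIrreducible_iff_sUnion_isClosed.1 hZ
    (hf.image fun x => ({x} : Set α)).toFinset
    (by
      intro t ht
      obtain ⟨x, hx, rfl⟩ := (Set.Finite.mem_toFinset _).1 ht
      exact hx.2)
    (by
      intro x hx
      exact ⟨{x}, (Set.Finite.mem_toFinset _).2 ⟨x, h2 ▸ hx, rfl⟩, rfl⟩)
  obtain ⟨x, hx, rfl⟩ := (Set.Finite.mem_toFinset _).1 ht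
  exact hns x hx.2 (Set.Subset.antisymm hZt (Set.singleton_subset_iff.2 hx.1))

theorem skel_top [JacobsonSpace α] [PreconnectedSpace α] (Sm Nd : α → Prop)
    (hfin : (irreducibleComponents α).Finite) (hcl : ∀ x, IsClosed {x} → Sm x ∨ Nd x)
    (hSm : ∀ x, Sm x → IsClosed {x}) (hNd : ∀ x, Nd x → IsClosed {x})
    (hex : ∀ x, Sm x → ¬Nd x)
    (h1 : ∀ x, Sm x → ∀ Z ∈ irreducibleComponents α, ∀ W ∈ irreducibleComponents α,
      x ∈ Z → x ∈ W → Z = W)
    (h2 : ∀ x, Nd x → ∀ Z ∈ irreducibleComponents α, ∀ W ∈ irreducibleComponents α,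
      ∀ V ∈ irreducibleComponents α, x ∈ Z → x ∈ W → x ∈ V → Z = W ∨ Z = V ∨ W = V)
    (hdim : Dim1 α) (hns : ∀ x, IsClosed {x} → {x} ∉ irreducibleComponents α)
    (m : Fin 3 → α) (hm : ∀ l, Sm (m l)) (hmi : Function.Injective m) (D : ℕ)
    (hD : {x | Nd x}.encard ≤ D) (M : Set α) (hM : M ∈ irreducibleComponents α)
    (hmM : ∀ l, m l ∈ M)
    (hT : ∀ Z ∈ irreducibleComponents α, Z ≠ M → ∃! x, x ∈ Z ∧ Nd x) :
    ∃ K : Skel α m D, ∀ i, Sm (K.d i) := by
  have hclo : ∀ Z ∈ irreducibleComponents α, IsClosed Z := isClosed_of_mem_irreducibleComponents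
  have hinf : ∀ Z ∈ irreducibleComponents α, (Z ∩ closedPoints α).Infinite := fun Z hZ =>
    infinite_closedPoints hZ.1 (hclo Z hZ) fun x hx e => hns x hx (e ▸ hZ)
  have hNf : {x | Nd x}.Finite := Set.finite_of_encard_le_coe hD
  let ι := {Z : Set α // Z ∈ irreducibleComponents α ∧ Z ≠ M}
  choose n hn hnu using fun Z : ι => hT Z.1 Z.2.1 Z.2.2
  have hnM : ∀ Z : ι, n Z ∈ M := by
    intro Z
    by_contra hcon
    have c1 : IsClosed (⋃ W ∈ {W ∈ irreducibleComponents α | n Z ∈ W}, W) :=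
      (hfin.subset fun _ h => h.1).isClosed_biUnion fun W hW => hclo W hW.1
    have c2 : IsClosed (⋃ W ∈ {W ∈ irreducibleComponents α | n Z ∉ W}, W) :=
      (hfin.subset fun _ h => h.1).isClosed_biUnion fun W hW => hclo W hW.1
    obtain ⟨y, -, hy⟩ := isPreconnected_closed_iff.1 (isPreconnected_univ (α := α)) _ _ c1 c2
      (fun y _ => by
        by_cases h : n Z ∈ irreducibleComponent y
        · exact Or.inl (Set.mem_biUnion (show irreducibleComponent y ∈ _ from
            ⟨irreducibleComponent_mem_irreducibleComponents y, h⟩) mem_irreducibleComponent)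
        · exact Or.inr (Set.mem_biUnion (show irreducibleComponent y ∈ _ from
            ⟨irreducibleComponent_mem_irreducibleComponents y, h⟩) mem_irreducibleComponent))
      ⟨n Z, trivial, Set.mem_biUnion (show Z.1 ∈ _ from ⟨Z.2.1, (hn Z).1⟩) (hn Z).1⟩
      ⟨m 0, trivial, Set.mem_biUnion (show M ∈ _ from ⟨hM, hcon⟩) (hmM 0)⟩
    obtain ⟨z, ⟨hz1, hz2⟩, hz⟩ := nonempty_inter_closedPoints ⟨y, hy⟩
      (c1.inter c2).isLocallyClosed
    simp only [Set.mem_iUnion, Set.mem_ofPred_eq] at hz1 hz2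
    obtain ⟨W, ⟨hW, hW'⟩, hzW⟩ := hz1
    obtain ⟨V, ⟨hV, hV'⟩, hzV⟩ := hz2
    rcases hcl z hz with h | h
    · exact hV' (h1 z h W hW V hV hzW hzV ▸ hW')
    · have hWM : W ≠ M := fun e => hcon (e ▸ hW')
      have e1 := hnu ⟨W, hW, hWM⟩ z ⟨hzW, h⟩
      have e2 := hnu ⟨W, hW, hWM⟩ (n Z) ⟨hW', (hn Z).2⟩
      exact hV' (e2.trans e1.symm ▸ hzV)
  have hni : Function.Injective n := by
    intro Z W e
    rcases h2 (n Z) (hn Z).2 Z.1 Z.2.1 W.1 W.2.1 M hM (hn Z).1 (e ▸ (hn W).1) (hnM Z) with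
      h | h | h
    · exact Subtype.ext h
    · exact absurd h Z.2.2
    · exact absurd h W.2.2
  obtain ⟨j0⟩ : Nonempty ({x | Nd x} ↪ Fin D) := by
    have := hNf.fintype
    refine Function.Embedding.nonempty_of_card_le ?_
    rw [Set.encard_eq_coe_toFinset_card, Set.toFinset_card] at hD
    rw [Fintype.card_fin]
    exact_mod_cast hD
  let j : ι → Fin D := fun Z => j0 ⟨n Z, (hn Z).2⟩
  have hj : Function.Injective j := fun Z W e => hni (congrArg Subtype.val (j0.injective e))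
  have hd : ∀ Z : ι, ∃ x, x ∈ Z.1 ∧ Sm x := fun Z => by
    obtain ⟨x, hx, hx'⟩ := ((hinf Z.1 Z.2.1).sdiff hNf).nonempty
    exact ⟨x, hx.1, (hcl x hx.2).resolve_right hx'⟩
  choose d hdZ hdS using hd
  have hdM : ∀ Z : ι, d Z ∉ M := fun Z h => Z.2.2 (h1 _ (hdS Z) _ Z.2.1 _ hM (hdZ Z) h)
  have hI := (hinf M hM).sdiff (hNf.union (Set.finite_range m))
  let p : Fin D → α := fun i => hI.natEmbedding _ i
  have hpi : Function.Injective p := fun i l e =>
    Fin.ext ((hI.natEmbedding _).injective (Subtype.ext e))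
  have hp : ∀ i, p i ∈ M ∧ Sm (p i) ∧ ∀ l, p i ≠ m l := fun i => by
    obtain ⟨⟨a, b⟩, c⟩ := (hI.natEmbedding _ i).2
    exact ⟨a, (hcl _ b).resolve_right fun h => c (Or.inl h), fun l e => c (Or.inr ⟨l, e.symm⟩)⟩
  have cases : ∀ i, (∃ Z, j Z = i) ∨ ¬∃ Z, j Z = i := fun i => em _
  have hdS' : ∀ i, Sm (Function.extend j d p i) := fun i => by
    rcases cases i with ⟨Z, rfl⟩ | h
    · rw [hj.extend_apply]; exact hdS Z
    · rw [Function.extend_apply' _ _ _ h]; exact (hp i).2.1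
  refine ⟨{
    M := M
    T := Function.extend j (fun Z => Z.1) fun _ => ∅
    tail := fun i => ∃ Z, j Z = i
    d := Function.extend j d p
    ξ := Function.extend j n p
    dim1 := hdim
    irrM := hM.1
    clM := hclo M hM
    mM := hmM
    comps := fun Z hZ => ?_
    irrT := ?_
    clT := ?_
    dT := ?_
    ξT := ?_
    dM := ?_
    mT := ?_
    nt := fun i h => ?_
    ξM := fun i => ?_
    ξinj := fun i l e => ?_
    dinj := fun i l e => ?_
    minj := hmi
    ξm := fun i l => ?_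
    cld := fun i => hSm _ (hdS' i)
    clξ := fun i => ?_
    clm := fun l => hSm _ (hm l) }, hdS'⟩
  · by_cases h : Z = M
    · exact Or.inl h
    · exact Or.inr ⟨j ⟨Z, hZ, h⟩, ⟨_, rfl⟩, by rw [hj.extend_apply]⟩
  · rintro _ ⟨Z, rfl⟩; rw [hj.extend_apply]; exact Z.2.1.1
  · rintro _ ⟨Z, rfl⟩; rw [hj.extend_apply]; exact hclo _ Z.2.1
  · rintro _ ⟨Z, rfl⟩; rw [hj.extend_apply, hj.extend_apply]; exact hdZ Z
  · rintro _ ⟨Z, rfl⟩; rw [hj.extend_apply, hj.extend_apply]; exact (hn Z).1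
  · rintro _ ⟨Z, rfl⟩; rw [hj.extend_apply]; exact hdM Z
  · rintro _ ⟨Z, rfl⟩; rw [hj.extend_apply]
    exact fun h => Z.2.2 (h1 _ (hm 2) _ Z.2.1 _ hM h (hmM 2))
  · rw [Function.extend_apply' _ _ _ h, Function.extend_apply' _ _ _ h]
  · rcases cases i with ⟨Z, rfl⟩ | h
    · rw [hj.extend_apply]; exact hnM Z
    · rw [Function.extend_apply' _ _ _ h]; exact (hp i).1
  · rcases cases i with ⟨Z, rfl⟩ | h <;> rcases cases l with ⟨W, rfl⟩ | h'
    · rw [hj.extend_apply, hj.extend_apply] at e; rw [hni e]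
    · rw [hj.extend_apply, Function.extend_apply' _ _ _ h'] at e
      exact absurd (e ▸ (hn Z).2) (hex _ (hp l).2.1)
    · rw [hj.extend_apply, Function.extend_apply' _ _ _ h] at e
      exact absurd (e ▸ (hn W).2) (hex _ (hp i).2.1)
    · rw [Function.extend_apply' _ _ _ h, Function.extend_apply' _ _ _ h'] at e
      exact hpi e
  · rcases cases i with ⟨Z, rfl⟩ | h <;> rcases cases l with ⟨W, rfl⟩ | h'
    · rw [hj.extend_apply, hj.extend_apply] at e
      rw [Subtype.ext (h1 _ (hdS Z) _ Z.2.1 _ W.2.1 (hdZ Z) (e ▸ hdZ W))]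
    · rw [hj.extend_apply, Function.extend_apply' _ _ _ h'] at e
      exact absurd (e ▸ (hp l).1) (hdM Z)
    · rw [hj.extend_apply, Function.extend_apply' _ _ _ h] at e
      exact absurd (e ▸ (hp i).1) (hdM W)
    · rw [Function.extend_apply' _ _ _ h, Function.extend_apply' _ _ _ h'] at e
      exact hpi e
  · rcases cases i with ⟨Z, rfl⟩ | h
    · rw [hj.extend_apply]; exact fun e => hex _ (hm l) (e ▸ (hn Z).2)
    · rw [Function.extend_apply' _ _ _ h]; exact (hp i).2.2 l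
  · rcases cases i with ⟨Z, rfl⟩ | h
    · rw [hj.extend_apply]; exact hNd _ (hn Z).2
    · rw [Function.extend_apply' _ _ _ h]; exact hSm _ (hp i).2.1

end Top

section Sch

variable {k : Type} [Field k] {C : Scheme.{0}} [IsLocallyNoetherian C]

/-- The generisations of a point whose completed local ring has at most two branches. -/
theorem gen_of_branches (x : C)
    (ψ₁ ψ₂ : AdicCompletion (maximalIdeal (C.presheaf.stalk x)) (C.presheaf.stalk x) →+*
      PowerSeries k) (h₁ : Function.Surjective ψ₁) (h₂ : Function.Surjective ψ₂)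
    (h : ∀ a b, ψ₁ a = 0 → ψ₂ b = 0 → a * b = 0) :
    ∃ g₁ g₂ : C, (∀ y, y ⤳ x → g₁ ⤳ y ∨ g₂ ⤳ y) ∧ (ψ₁ = ψ₂ → g₁ = g₂) ∧ (g₁ ⤳ x ∧ g₁ ≠ x) ∧
      ∀ y z, z ⤳ y → y ⤳ x → y = z ∨ y = x := by
  obtain ⟨q₁, q₂, a, b, c, d⟩ := primes_of_branches ψ₁ ψ₂ h₁ h₂ h
  have hr : ∀ y, y ⤳ x → ∃ p : PrimeSpectrum (C.presheaf.stalk x), C.fromSpecStalk x p = y := by
    intro y hy
    have : y ∈ Set.range (C.fromSpecStalk x) := by
      rw [Scheme.range_fromSpecStalk]; exact hy
    exact this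
  have he := (C.fromSpecStalk x).isEmbedding
  have hs : ∀ p q : PrimeSpectrum (C.presheaf.stalk x),
      C.fromSpecStalk x p ⤳ C.fromSpecStalk x q ↔ p ≤ q := fun p q =>
    he.isInducing.specializes_iff.trans (PrimeSpectrum.le_iff_specializes p q).symm
  have hx : C.fromSpecStalk x (closedPoint (C.presheaf.stalk x)) = x :=
    Scheme.fromSpecStalk_closedPoint
  refine ⟨C.fromSpecStalk x q₁, C.fromSpecStalk x q₂, fun y hy => ?_, fun e => by rw [b e],
    ⟨?_, fun e => c (he.injective (e.trans hx.symm))⟩, fun y z hz hy => ?_⟩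
  · obtain ⟨p, rfl⟩ := hr y hy
    exact (a p).imp (hs _ _).2 (hs _ _).2
  · have := (hs q₁ (closedPoint _)).2 (le_maximalIdeal q₁.isPrime.ne_top)
    rwa [hx] at this
  · obtain ⟨p, rfl⟩ := hr y hy
    obtain ⟨p', rfl⟩ := hr z (hz.trans hy)
    rcases ((hs _ _).1 hz).eq_or_lt with e | e
    · exact Or.inl (by rw [e])
    · exact Or.inr (by rw [d _ _ e, hx])

theorem gen_smooth {x : C} (h : LocType (PowerSeries k) C x) :
    ∃ g : C, (∀ y, y ⤳ x → g ⤳ y) ∧ (g ⤳ x ∧ g ≠ x) ∧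
      ∀ y z, z ⤳ y → y ⤳ x → y = z ∨ y = x := by
  obtain ⟨-, ⟨e⟩⟩ := h
  obtain ⟨g₁, g₂, a, b, c, d⟩ := gen_of_branches x e.toRingHom e.toRingHom e.surjective
    e.surjective fun a b ha _ => by rw [(map_eq_zero_iff _ e.injective).1 ha, zero_mul]
  obtain rfl := b rfl
  exact ⟨g₁, fun y hy => (a y hy).elim id id, c, d⟩

theorem gen_node {x : C} (h : LocType (NodeRing k) C x) :
    ∃ g₁ g₂ : C, (∀ y, y ⤳ x → g₁ ⤳ y ∨ g₂ ⤳ y) ∧ (g₁ ⤳ x ∧ g₁ ≠ x) ∧
      ∀ y z, z ⤳ y → y ⤳ x → y = z ∨ y = x := by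
  obtain ⟨-, ⟨e⟩⟩ := h
  obtain ⟨φ₁, φ₂, s₁, s₂, hz, -⟩ := node_branches (k := k)
  obtain ⟨g₁, g₂, a, -, c, d⟩ := gen_of_branches x (φ₁.comp e.toRingHom) (φ₂.comp e.toRingHom)
    (s₁.comp e.surjective) (s₂.comp e.surjective) fun a b ha hb =>
      e.injective (by rw [map_mul, map_zero]; exact hz _ _ ha hb)
  exact ⟨g₁, g₂, a, c, d⟩

omit [IsLocallyNoetherian C] in
theorem comp_eq_closure {Z : Set C} (hZ : Z ∈ irreducibleComponents C) {g : C}
    (hg : ∀ y, IsGenericPoint y Z → g ⤳ y) : Z = closure {g} := by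
  have hη := hZ.1.isGenericPoint_genericPoint (isClosed_of_mem_irreducibleComponents Z hZ)
  have h1 : Z ⊆ closure {g} := by
    rw [← hη.def]
    exact closure_minimal (Set.singleton_subset_iff.2 (hg _ hη).mem_closure) isClosed_closure
  exact Set.Subset.antisymm h1 (hZ.2 isIrreducible_singleton.closure h1)

end Sch

theorem skel : SSkel := by
  intro k _ _ D F _ hP hT
  obtain ⟨hcon, -, hcl, hσ, hinj⟩ := hP
  obtain ⟨hD, M, hM, hmM, hZ⟩ := hT
  have : IsLocallyNoetherian F.C := LocallyOfFiniteType.isLocallyNoetherian F.π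
  have : CompactSpace F.C := QuasiCompact.compactSpace_of_compactSpace F.π
  have : IsNoetherian F.C := {}
  have : JacobsonSpace F.C := LocallyOfFiniteType.jacobsonSpace F.π
  have hclo : ∀ Z ∈ irreducibleComponents F.C, IsClosed Z := isClosed_of_mem_irreducibleComponents
  have hgen : ∀ x : F.C, IsClosed {x} → (∃ g, g ⤳ x ∧ g ≠ x) ∧
      ∀ y z, z ⤳ y → y ⤳ x → y = z ∨ y = x := fun x hx => by
    rcases hcl x hx with h | h
    · obtain ⟨g, -, a, b⟩ := gen_smooth h
      exact ⟨⟨g, a⟩, b⟩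
    · obtain ⟨g, -, -, a, b⟩ := gen_node h
      exact ⟨⟨g, a⟩, b⟩
  refine skel_top (LocType (PowerSeries k) F.C) (LocType (NodeRing k) F.C)
    NoetherianSpace.finite_irreducibleComponents hcl (fun _ h => h.1) (fun _ h => h.1)
    (fun x ⟨_, ⟨e⟩⟩ ⟨_, ⟨e'⟩⟩ => not_equiv_node (e.symm.trans e')) (fun x h Z hZ W hW hxZ hxW => ?_)
    (fun x h Z hZ W hW V hV hxZ hxW hxV => ?_) (fun Z hZ hc => ?_) (fun x hx hcomp => ?_) _
    (fun l => hσ l _) (fun i j e => hinj i j _ e) D hD M hM (fun l => hmM l _) hZ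
  · obtain ⟨g, hg, -⟩ := gen_smooth h
    rw [comp_eq_closure hZ fun y hy => hg y (hy.specializes hxZ),
      comp_eq_closure hW fun y hy => hg y (hy.specializes hxW)]
  · obtain ⟨g₁, g₂, hg, -⟩ := gen_node h
    have key : ∀ Y ∈ irreducibleComponents F.C, x ∈ Y → Y = closure {g₁} ∨ Y = closure {g₂} := by
      intro Y hY hxY
      have hη := hY.1.isGenericPoint_genericPoint (hclo Y hY)
      exact (hg _ (hη.specializes hxY)).imp
        (fun h' => comp_eq_closure hY fun y hy => hη.eq hy ▸ h')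
        (fun h' => comp_eq_closure hY fun y hy => hη.eq hy ▸ h')
    rcases key Z hZ hxZ with a | a <;> rcases key W hW hxW with b | b <;>
      rcases key V hV hxV with c | c <;> simp [a, b, c]
  · obtain ⟨W, hW, hZW⟩ := exists_mem_irreducibleComponents_subset_of_isIrreducible Z hZ
    obtain ⟨x, hxZ, hx⟩ := nonempty_inter_closedPoints hZ.nonempty hc.isLocallyClosed
    have hη := hZ.isGenericPoint_genericPoint hc
    have hη' := hW.1.isGenericPoint_genericPoint (hclo W hW)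
    rcases (hgen x hx).2 _ _ (hη'.specializes (hZW hη.mem)) (hη.specializes hxZ) with e | e
    · left
      rw [← hη.def, e, hη'.def]
      exact hW
    · right
      exact ⟨x, by rw [← hη.def, e, IsClosed.closure_eq hx]⟩
  · obtain ⟨g, hg, hne⟩ := (hgen x hx).1
    exact hne (hcomp.2 isIrreducible_singleton.closure
      (Set.singleton_subset_iff.2 hg.mem_closure) (subset_closure rfl))

end Pool.Agent.MP_52bf41_ag.H71
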